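import Pool.Agent.MP_5a4599_gt.K.Main

open Pool.Agent.MP_5a4599_gt.K

theorem Pool.Agent.Results.MP_5a4599_gt.HittingExact.result :
    List.TFAE [¬ IH, All SigmaDisj, All fun X _ => CMetacompact X → Metacompact X,
      All fun X _ => Perf X → Metacompact X] :=
  hitting_tfae
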