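import Pool.Agent.Mg.F5a4599.Gd3098f

open Pool.Agent.MP_c6cf52_lc Pool.Agent.MP_5a4599_gt

theorem Pool.Agent.Results.MP_5a4599_gt.Q2Metacompact.result :
    ∃ (M : Type 2) (E : M → M → Prop), IsZFC E ∧ ∃ w w1, IsOmega E w ∧ IsCard E w1 ∧
      E w w1 ∧ (∀ m, IsCard E m → E w m → ¬ E m w1) ∧ ∀ X T,
        (∃ h, IsInj E h w1 X ∧ ∀ y, E y X → ∃ a, App E h a y) → IsTop E X T → IsRegT1 E X T →
          HasSigmaBase E w X T → IsMetacompact E w X T := by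
  obtain ⟨M, E, h, w, w1, h₁, h₂, h₃, h₄, h₅⟩ := final
  exact ⟨M, E, h, w, w1, h₁, h₂, h₃, h₄, fun X T a b c d => (h₅ X T a b c d).2⟩
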